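import Pool.Graph.R_pool_sql_team_ae5b0c61.Results.MP_18867f_lc.InP

/-!
# Good orderings of 2T-graphs: a criterion, and the version with prescribed roots

A 2T-graph has a good ordering for which the out-branching has root `s` and the in-branching has
root `t` if and only if its edges can be distributed to the vertices, two incident edges to every
vertex different from `s` and `t` and one to `s` and to `t`, in such a way that in every tight set
with at least two vertices every vertex has one of its edges inside the set. So the problem with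
prescribed roots is solvable in polynomial time as well.
-/

set_option autoImplicit false

namespace Pool.Agent.Results.MP_18867f_lc.RootedCriterion

open Pool.Agent.H38.NP Pool.Agent.H24
open Pool.Agent.Results.MP_18867f_lc.InP (Codes TwoT Br GoodOrd br_of)

/-- Some linear order gives an out-branching with root `s` and an in-branching with root `t`
without common arc. -/
def GoodAt {V E : Type} (ends : E → Sym2 V) (s t : V) : Prop :=
  ∃ (o : LinearOrder V) (O I : Set E), Disjoint O I ∧
    Br (fun e v => ∃ u, ends e = s(u, v) ∧ o.lt u v) O s ∧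
    Br (fun e v => ∃ u, ends e = s(u, v) ∧ o.lt v u) I t

/-- The edges with both ends in `X`. -/
def inside {V E : Type} (ends : E → Sym2 V) (X : Finset V) : Set E := {e | ∀ a ∈ ends e, a ∈ X}

/-- `φ` gives every vertex `v` different from `s` and `t` two edges `φ v false`, `φ v true`, and
the vertices `s` and `t` one edge `φ v false` each. These edges are different, they are incident
with their vertex, and in every tight set `Y` (with `2 |Y| ≤ |E(G[Y])| + 2`) with at least two
elements every vertex has one of its edges inside `Y`. -/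
def Distribution {V E : Type} (ends : E → Sym2 V) (s t : V) (φ : V → Bool → E) : Prop :=
  (∀ v b, (b = false ∨ (v ≠ s ∧ v ≠ t)) → v ∈ ends (φ v b)) ∧
  (∀ v b v' b', (b = false ∨ (v ≠ s ∧ v ≠ t)) → (b' = false ∨ (v' ≠ s ∧ v' ≠ t)) →
    φ v b = φ v' b' → v = v' ∧ b = b') ∧
  ∀ Y : Finset V, 2 * Y.card ≤ (inside ends Y).ncard + 2 → 2 ≤ Y.card → ∀ w ∈ Y,
    ∃ b, (b = false ∨ (w ≠ s ∧ w ≠ t)) ∧ φ w b ∈ inside ends Y

lemma distribution_iff {V E : Type} [Fintype V] [DecidableEq V] [Fintype E] [DecidableEq E]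
    {ends : E → Sym2 V} {s t : V} {φ : V → Bool → E} :
    Distribution ends s t φ ↔ Ts.Slots ends s t φ := by
  have h1 : ∀ Y : Finset V, ((Ts.ins ends Y : Finset E) : Set E) = inside ends Y := by
    intro Y
    ext e
    rw [Finset.mem_coe, Ts.mem_ins]
    rfl
  have h2 : ∀ Y : Finset V, (inside ends Y).ncard = (Ts.ins ends Y).card := by
    intro Y
    rw [← h1, Set.ncard_coe_finset]
  have h3 : ∀ (Y : Finset V) (e : E), e ∈ inside ends Y ↔ e ∈ Ts.ins ends Y := by
    intro Y e
    rw [← h1, Finset.mem_coe]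
  unfold Distribution Ts.Slots Ts.Tight Ts.Used
  simp only [h2, h3]

lemma goodAt_iff {V E : Type} [Fintype V] {ends : E → Sym2 V} {s t : V}
    (hn : 2 ≤ Fintype.card V) : GoodAt ends s t ↔ s ≠ t ∧ Ts.GoodE ends s t := by
  have : Nontrivial V := Fintype.one_lt_card_iff_nontrivial.1 hn
  constructor
  · rintro ⟨o, O, I, hd, ⟨-, h1⟩, -, h2⟩
    obtain ⟨w, hw⟩ := exists_ne s
    have : Nonempty E := ⟨(h1 w hw).exists.choose⟩
    obtain ⟨f, hf⟩ : ∃ f : V → ℚ, ∀ a b, o.lt a b → f a < f b := by
      classical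
      refine ⟨fun v => ((Finset.univ.filter (fun u => o.lt u v)).card : ℚ), fun a b k => ?_⟩
      rw [Nat.cast_lt]
      apply Finset.card_lt_card
      rw [Finset.ssubset_iff_of_subset]
      · exact ⟨a, by simpa using k, by simp⟩
      · intro x hx
        simp only [Finset.mem_filter, Finset.mem_univ, true_and] at hx ⊢
        exact @lt_trans _ o.toPreorder _ _ _ hx k
    have hinj : Function.Injective f := fun a b k => by
      rcases @lt_trichotomy _ o a b with l | l | l
      · exact absurd k (hf a b l).ne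
      · exact l
      · exact absurd k (hf b a l).ne'
    choose! p hp using fun v hv => (h1 v hv).exists
    choose! q hq using fun v hv => (h2 v hv).exists
    refine ⟨?_, f, p, q, hinj, fun v hv => ?_, fun v hv => ?_, fun v w hv hw k => ?_⟩
    · rintro rfl
      have : Nonempty V := ⟨s⟩
      obtain ⟨lo, l⟩ := Finite.exists_min f
      obtain ⟨hi, u⟩ := Finite.exists_max f
      have a1 : lo = s := by
        by_contra k
        obtain ⟨x, -, k2⟩ := (hp lo k).2
        exact absurd (l x) (not_le.mpr (hf _ _ k2))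
      have a2 : hi = s := by
        by_contra k
        obtain ⟨x, -, k2⟩ := (hq hi k).2
        exact absurd (u x) (not_le.mpr (hf _ _ k2))
      subst a1
      subst a2
      obtain ⟨x, y, hxy⟩ := exists_pair_ne V
      exact hxy (hinj (le_antisymm ((u x).trans (l y)) ((u y).trans (l x))))
    · obtain ⟨x, k1, k2⟩ := (hp v hv).2
      exact ⟨x, k1, hf _ _ k2⟩
    · obtain ⟨x, k1, k2⟩ := (hq v hv).2
      exact ⟨x, k1, hf _ _ k2⟩
    · exact Set.disjoint_left.mp hd (hp v hv).1 (k ▸ (hq w hw).1)
  · rintro ⟨-, f, p, q, hf, hp, hq, hd⟩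
    have b1 : Br (fun e v => ∃ u, ends e = s(u, v) ∧ f u < f v) (p '' {v | v ≠ s}) s := by
      have key : ∀ v w, v ≠ s → (∃ u, ends (p v) = s(u, w) ∧ f u < f w) → v = w := by
        rintro v w hv ⟨u, k1, k2⟩
        obtain ⟨a, a1, a2⟩ := hp v hv
        rw [a1] at k1
        rcases Sym2.eq_iff.mp k1 with ⟨_, k⟩ | ⟨m1, m2⟩
        · exact k
        · rw [m1, m2] at a2
          exact absurd (a2.trans k2) (lt_irrefl _)
      refine ⟨?_, fun v hv => ⟨p v, ⟨⟨v, hv, rfl⟩, hp v hv⟩, ?_⟩⟩
      · rintro _ ⟨v, hv, rfl⟩ k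
        exact hv (key v s hv k)
      · rintro _ ⟨⟨w, hw, rfl⟩, k⟩
        rw [key w v hw k]
    have b2 : Br (fun e v => ∃ u, ends e = s(u, v) ∧ f v < f u) (q '' {v | v ≠ t}) t := by
      have := br_of (f := fun x => - f x) (fun v hv => by simpa using hq v hv)
      simp only [neg_lt_neg_iff] at this
      exact this
    refine ⟨LinearOrder.lift' f hf, _, q '' {v | v ≠ t}, ?_, b1, b2⟩
    rw [Set.disjoint_left]
    rintro _ ⟨v, hv, rfl⟩ ⟨w, hw, k⟩
    exact hd v w hv hw k.symm

/-- The test for prescribed roots. -/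
def test (p : (ℕ × List (ℕ × ℕ)) × (ℕ × ℕ)) : Bool :=
  decide (p.2.1 < p.1.1) && (decide (p.2.2 < p.1.1) &&
    ((p.1.1 == 1) || (p.2.1 != p.2.2 &&
      BM.bm (2 * p.1.1) (Ts.a2 p.1.1 p.1.2 p.2.1 p.2.2))))

theorem pt_test : PT test := by
  unfold test
  fun_prop

lemma goodAt_of_subsingleton {V E : Type} [Subsingleton V] (ends : E → Sym2 V) (s t : V) :
    GoodAt ends s t :=
  ⟨LinearOrder.lift' (fun _ : V => (0 : ℚ)) (fun a b _ => Subsingleton.elim a b), ∅, ∅, by simp,
    ⟨by simp, fun v hv => absurd (Subsingleton.elim _ _) hv⟩,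
    ⟨by simp, fun v hv => absurd (Subsingleton.elim _ _) hv⟩⟩

/-- The criterion for prescribed roots. -/
theorem criterion {V E : Type} [Fintype V] [Fintype E] {ends : E → Sym2 V} (h : TwoT ends)
    {s t : V} (hst : s ≠ t) : GoodAt ends s t ↔ ∃ φ, Distribution ends s t φ := by
  classical
  obtain ⟨hl, h2⟩ := h
  have h2' : Ts.TwoT ends := h2
  have hE := h2'.card hl
  have hn : 2 ≤ Fintype.card V := by
    have : Nontrivial V := ⟨s, t, hst⟩
    exact Fintype.one_lt_card
  rw [goodAt_iff hn]
  simp only [distribution_iff]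
  exact ⟨fun h3 => Ts.slots_of_good hE.le hst h3.2,
    fun ⟨φ, h3⟩ => ⟨hst, Ts.good_of_slots (h2'.sp hl) hl hst h3⟩⟩

/-- **Good orderings of 2T-graphs.** (1) The criterion for good orderings with prescribed roots
`s`, `t`. (2) The criterion for good orderings. (3) The problem with prescribed roots is solvable
in polynomial time for 2T-graphs. (4) The problem without prescribed roots is solvable in
polynomial time for 2T-graphs. -/
theorem result :
    (∀ (V E : Type) [Fintype V] [Fintype E] (ends : E → Sym2 V), TwoT ends → ∀ s t : V, s ≠ t →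
      (GoodAt ends s t ↔ ∃ φ, Distribution ends s t φ)) ∧
    (∀ (V E : Type) [Fintype V] [Fintype E] (ends : E → Sym2 V), TwoT ends →
      (GoodOrd ends ↔ Fintype.card V = 1 ∨ ∃ s t : V, s ≠ t ∧ ∃ φ, Distribution ends s t φ)) ∧
    InPOn (fun p : (ℕ × List (ℕ × ℕ)) × (ℕ × ℕ) => ∃ ends, Codes p.1 ends ∧ TwoT ends)
      (fun p => ∃ (ends : Fin p.1.2.length → Sym2 (Fin p.1.1)) (hs : p.2.1 < p.1.1)
        (ht : p.2.2 < p.1.1), Codes p.1 ends ∧ GoodAt ends ⟨p.2.1, hs⟩ ⟨p.2.2, ht⟩) ∧
    InPOn (fun p : ℕ × List (ℕ × ℕ) => ∃ ends, Codes p ends ∧ TwoT ends)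
      (fun p => ∃ ends, Codes p ends ∧ GoodOrd ends) := by
  refine ⟨fun V E _ _ ends h s t hst => criterion h hst, fun V E _ _ ends h => ?_, ?_,
    InP.result⟩
  · have hE := Ts.TwoT.card h.1 h.2
    constructor
    · rintro ⟨o, O, I, s, t, h1⟩
      have h2 : GoodAt ends s t := ⟨o, O, I, h1⟩
      by_cases hn : Fintype.card V = 1
      · exact Or.inl hn
      · have hn2 : 2 ≤ Fintype.card V := by omega
        have hst : s ≠ t := ((goodAt_iff hn2).1 h2).1
        exact Or.inr ⟨s, t, hst, (criterion h hst).1 h2⟩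
    · rintro (hn | ⟨s, t, hst, h1⟩)
      · obtain ⟨s, hs⟩ := Fintype.card_eq_one_iff.1 hn
        have : Subsingleton V := ⟨fun a b => (hs a).trans (hs b).symm⟩
        obtain ⟨o, O, I, h1⟩ := goodAt_of_subsingleton ends s s
        exact ⟨o, O, I, s, s, h1⟩
      · obtain ⟨o, O, I, h1⟩ := (criterion h hst).2 h1
        exact ⟨o, O, I, s, t, h1⟩
  · refine inPOn_of_pt test pt_test ?_
    rintro ⟨⟨n, L⟩, s, t⟩ ⟨ends, h1, hl, h2⟩
    have h1' : Ts.Codes n L ends := h1
    have h2' : Ts.TwoT ends := h2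
    have hE := Ts.TwoT.card hl h2
    simp only [Fintype.card_fin] at hE
    have huniq : ∀ ends' : Fin L.length → Sym2 (Fin n), Codes (n, L) ends' → ends' = ends :=
      fun ends' k => funext fun i =>
        Sym2.map.injective Fin.val_injective ((k i).trans (h1 i).symm)
    simp only [test, Bool.and_eq_true, decide_eq_true_eq, Bool.or_eq_true, beq_iff_eq,
      bne_iff_ne]
    constructor
    · rintro ⟨ends', hs, ht, k1, k2⟩
      obtain rfl := huniq ends' k1
      refine ⟨hs, ht, ?_⟩
      by_cases hn : n = 1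
      · exact Or.inl hn
      · have hn2 : 2 ≤ Fintype.card (Fin n) := by rw [Fintype.card_fin]; omega
        obtain ⟨k3, k4⟩ := (goodAt_iff hn2).1 k2
        refine Or.inr ⟨fun h => k3 (Fin.ext h), ?_⟩
        exact (Ts.a2_iff h1' (h2'.sp hl) hl hE.ge (by simpa using hn2) ⟨s, hs⟩ ⟨t, ht⟩).2
          (Ts.slots_of_good (by simp [hE]) k3 k4)
    · rintro ⟨hs, ht, k⟩
      refine ⟨ends, hs, ht, h1, ?_⟩
      by_cases hn : n = 1
      · have : Subsingleton (Fin n) := by rw [hn]; infer_instance
        exact goodAt_of_subsingleton _ _ _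
      · have hn2 : 2 ≤ Fintype.card (Fin n) := by rw [Fintype.card_fin]; omega
        obtain ⟨k1, k2⟩ := k.resolve_left hn
        have hst : (⟨s, hs⟩ : Fin n) ≠ ⟨t, ht⟩ := by simpa using k1
        obtain ⟨φ, hφ⟩ := (Ts.a2_iff h1' (h2'.sp hl) hl hE.ge (by simpa using hn2)
          ⟨s, hs⟩ ⟨t, ht⟩).1 k2
        exact (goodAt_iff hn2).2 ⟨hst, Ts.good_of_slots (h2'.sp hl) hl hst hφ⟩

end Pool.Agent.Results.MP_18867f_lc.RootedCriterion
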